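import Mathlib
import Pool.Agent.Y197.SI.Sharp

/-!
# The central charges of Serre-invariant stability conditions on quartic threefolds

`X` is an arbitrary quartic threefold (the hypersurface of a nonzero quartic form `f` in projective
four-space; no smoothness is assumed), `Ku f` the right orthogonal of the structure sheaf in the
bounded derived category and `𝒮` a Serre functor of `Ku f`.

The definitions are those of the starting file
`Pool/Agent/Results/MP_d03fa8_ag/QuarticNotSerreInvariant.lean` (in `Pool/Agent/H969Q/Stmt.lean`).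
-/

set_option autoImplicit false

open Pool.Agent.H969Q Pool.Agent.Y197.SI

namespace Pool.Agent.Results.MP_d03fa8_ag.SerreInvariantCharges

/-- (1) If the central charge `z₀ H³ch₀ + z₁ H²ch₁ + z₂ Hch₂` (with arbitrary complex coefficients)
of a stability condition on `Ku(X)` is Serre-invariant, then `z₁ = 2 z₀` and `z₀`, `z₂` are linearly
independent over the real numbers (these are the charges in the orbit of `Z_{-1/2,0}`), or it is the
degenerate charge `z₀ (H³ch₀ + H²ch₁ + 2 Hch₂)`, with values on a line.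
(2) In particular, for all real `s`, `q`, `μ`, a stability condition on `Ku(X)` with the charge
`Z^μ_{s,q}` which is Serre-invariant has `(s, q) = (-1/2, 0)`.
(3) This pair cannot be excluded by the numerical action of the Serre functor: there are three
objects of `Ku(X)` with linearly independent classes and, for every `μ`, an orientation-preserving
real linear automorphism `g` of the plane with `Z^μ_{-1/2,0}(S K) = g (Z^μ_{-1/2,0}(K))` for these
three objects. -/
theorem result (f : MvPolynomial (Fin 5) ℂ) (hf : f.IsHomogeneous 4) (h0 : f ≠ 0)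
    (𝒮 : SerreFunctor f) :
    (∀ σ : StabCond f, SerreInvariant σ 𝒮 → ∀ z₀ z₁ z₂ : ℂ,
      (∀ E, Ku f E → σ.Z E = z₀ * ch0 E + z₁ * ch1 E + z₂ * ch2 E) →
      (z₁ = 2 * z₀ ∧ LinearIndependent ℝ ![z₀, z₂]) ∨ (z₁ = z₀ ∧ z₂ = 2 * z₀)) ∧
    (∀ σ : StabCond f, SerreInvariant σ 𝒮 → ∀ s q μ : ℝ,
      (∀ E, Ku f E → σ.Z E = Zmu s q μ E) → s = -1 / 2 ∧ q = 0) ∧
    (∃ K₁ K₂ K₃ : KU f,
      LinearIndependent ℝ ![![ch0 (cpx K₁), ch1 (cpx K₁), ch2 (cpx K₁)],
        ![ch0 (cpx K₂), ch1 (cpx K₂), ch2 (cpx K₂)],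
        ![ch0 (cpx K₃), ch1 (cpx K₃), ch2 (cpx K₃)]] ∧
      ∀ μ : ℝ, ∃ g : ℂ ≃ₗ[ℝ] ℂ, 0 < LinearMap.det (g : ℂ →ₗ[ℝ] ℂ) ∧
        Zmu (-1 / 2) 0 μ (cpx (im 𝒮.S K₁)) = g (Zmu (-1 / 2) 0 μ (cpx K₁)) ∧
        Zmu (-1 / 2) 0 μ (cpx (im 𝒮.S K₂)) = g (Zmu (-1 / 2) 0 μ (cpx K₂)) ∧
        Zmu (-1 / 2) 0 μ (cpx (im 𝒮.S K₃)) = g (Zmu (-1 / 2) 0 μ (cpx K₃))) := by
  refine ⟨fun σ hσ z₀ z₁ z₂ hZ => charges f hf h0 𝒮 σ hσ z₀ z₁ z₂ hZ,
    fun σ hσ s q μ hZ => tilt f hf h0 𝒮 σ hσ s q μ hZ, ?_⟩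
  obtain ⟨K₁, K₂, K₃, hli, hS⟩ := sharp f hf h0
  obtain ⟨h1, h2, h3⟩ := hS (fun E => im 𝒮.S E) (fun E F => ⟨𝒮.η E F⟩)
  refine ⟨K₁, K₂, K₃, ?_, fun μ => ⟨turnU (uv μ) (uv_ne μ), ?_, ?_, ?_, ?_⟩⟩
  · rw [Fintype.linearIndependent_iff]
    intro c hc
    have e := fun i => congrFun hc i
    simp only [Fin.sum_univ_three, Pi.add_apply, Pi.smul_apply, smul_eq_mul, Pi.zero_apply] at e
    have e0 := e 0
    have e1 := e 1
    have e2 := e 2
    simp only [Matrix.cons_val_zero, Matrix.cons_val_one, Matrix.cons_val] at e0 e1 e2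
    obtain ⟨a, b, c'⟩ := hli (c 0) (c 1) (c 2) e0 e1 e2
    intro i
    fin_cases i
    · exact a
    · exact b
    · exact c'
  · rw [det_turnU]
    norm_num
  · exact (congrArg (fun z => z / uv μ) h1).trans (turnU_apply (uv μ) (uv_ne μ) _).symm
  · exact (congrArg (fun z => z / uv μ) h2).trans (turnU_apply (uv μ) (uv_ne μ) _).symm
  · exact (congrArg (fun z => z / uv μ) h3).trans (turnU_apply (uv μ) (uv_ne μ) _).symm

end Pool.Agent.Results.MP_d03fa8_ag.SerreInvariantCharges
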